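import Mathlib

/-!
# A non-semigroup grading of every full matrix algebra `M_n(K)`, `n ≥ 3`

We answer Q1 of `MP_5a34df_al` in the negative, over every field `K` and for every `n ≥ 3`.

The grading is a coarsening of the decomposition of `M_n(K)` into the lines spanned by the matrix
units `e_ij` (indices start at `0`): the only classes with more than one matrix unit are
`{e_00, e_11, e_22}`, `{e_01, e_10}` and `{e_12, e_20}`.

Put `g = [e_02]`, `h = [e_12] = [e_20]`, `k = [e_21]`. Then `g * h = [e_02 e_20] = [e_00]`,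
`h * k = [e_12 e_21] = [e_11] = [e_00]`, `(g * h) * k = [e_00] * [e_21] = [e_22 e_21] = [e_21]`
and `g * (h * k) = [e_02] * [e_00] = [e_02 e_22] = [e_02]`.
In a semigroup the last two would have to coincide.
-/

set_option autoImplicit false

universe u v

namespace Pool.Agent.Results.MP_5a34df_al.NonSemigroupGrading

open Matrix

/-- The label of the matrix unit `e_ij`, where `i j : ℕ`. -/
def label (p : ℕ × ℕ) : ℕ × ℕ :=
  if p = (1, 1) then (0, 0) else
  if p = (2, 2) then (0, 0) else
  if p = (1, 0) then (0, 1) else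
  if p = (2, 0) then (1, 2) else p

theorem label_eq {i j i' j' : ℕ} (h : label (i, j) = label (i', j')) :
    (i = i' ∧ j = j') ∨ (i < 3 ∧ j < 3 ∧ i' < 3 ∧ j' < 3) := by
  simp only [label, Prod.mk.injEq] at h
  split_ifs at h <;> simp only [Prod.mk.injEq] at h <;> omega

theorem label_row {i j j' : ℕ} (h : label (i, j) = label (i, j')) : j = j' := by
  simp only [label, Prod.mk.injEq] at h
  split_ifs at h <;> simp only [Prod.mk.injEq] at h <;> omega

theorem label_col {i i' j : ℕ} (h : label (i, j) = label (i', j)) : i = i' := by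
  simp only [label, Prod.mk.injEq] at h
  split_ifs at h <;> simp only [Prod.mk.injEq] at h <;> omega

theorem label_comp_fin : ∀ i j l i' j' l' : Fin 3,
    label ((i : ℕ), (j : ℕ)) = label ((i' : ℕ), (j' : ℕ)) →
    label ((j : ℕ), (l : ℕ)) = label ((j' : ℕ), (l' : ℕ)) →
    label ((i : ℕ), (l : ℕ)) = label ((i' : ℕ), (l' : ℕ)) := by
  decide

/-- Products of matrix units with prescribed labels all have the same label. -/
theorem label_comp {i j l i' j' l' : ℕ} (h1 : label (i, j) = label (i', j'))
    (h2 : label (j, l) = label (j', l')) : label (i, l) = label (i', l') := by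
  rcases label_eq h1 with ⟨rfl, rfl⟩ | ⟨hi, hj, hi', hj'⟩
  · rw [label_row h2]
  · rcases label_eq h2 with ⟨rfl, rfl⟩ | ⟨-, hl, -, hl'⟩
    · rw [label_col h1]
    · exact label_comp_fin ⟨i, hi⟩ ⟨j, hj⟩ ⟨l, hl⟩ ⟨i', hi'⟩ ⟨j', hj'⟩ ⟨l', hl'⟩ h1 h2

section General

variable {K : Type u} [Field K] {n : ℕ} {Γ : Type}

/-- The span of the matrix units `e_ij` with `c i j = γ`. -/
def part (K : Type u) [Field K] (c : Fin n → Fin n → Γ) (γ : Γ) :
    Submodule K (Matrix (Fin n) (Fin n) K) where
  carrier := {M | ∀ i j, c i j ≠ γ → M i j = 0}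
  add_mem' := by
    intro a b ha hb i j h
    simp [ha i j h, hb i j h]
  zero_mem' := by
    intro i j _
    rfl
  smul_mem' := by
    intro r a ha i j h
    simp [ha i j h]

theorem mem_part {c : Fin n → Fin n → Γ} {γ : Γ} {M : Matrix (Fin n) (Fin n) K} :
    M ∈ part K c γ ↔ ∀ i j, c i j ≠ γ → M i j = 0 := Iff.rfl

theorem single_mem_part (c : Fin n → Fin n → Γ) (i j : Fin n) (a : K) :
    Matrix.single i j a ∈ part K c (c i j) := by
  intro i' j' h
  apply Matrix.single_apply_of_ne
  rintro ⟨rfl, rfl⟩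
  exact h rfl

theorem iSup_part (c : Fin n → Fin n → Γ) : ⨆ γ, part K c γ = ⊤ := by
  rw [eq_top_iff]
  intro M _
  rw [Matrix.matrix_eq_sum_single M]
  refine Submodule.sum_mem _ fun i _ => Submodule.sum_mem _ fun j _ => ?_
  exact Submodule.mem_iSup_of_mem (c i j) (single_mem_part c i j _)

theorem iSupIndep_part (c : Fin n → Fin n → Γ) : iSupIndep (part K c) := by
  intro γ
  rw [Submodule.disjoint_def]
  intro M h1 h2
  have h3 : (⨆ δ, ⨆ (_ : δ ≠ γ), part K c δ) ≤
      { carrier := {M : Matrix (Fin n) (Fin n) K | ∀ i j, c i j = γ → M i j = 0}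
        add_mem' := by
          intro a b ha hb i j h
          simp [ha i j h, hb i j h]
        zero_mem' := by
          intro i j _
          rfl
        smul_mem' := by
          intro r a ha i j h
          simp [ha i j h] } := by
    refine iSup_le fun δ => iSup_le fun hδ => ?_
    intro N hN i j hij
    apply hN
    rw [hij]
    exact fun h => hδ h.symm
  have h4 := h3 h2
  ext i j
  by_cases hij : c i j = γ
  · exact h4 i j hij
  · exact h1 i j hij

theorem part_mul_le {c : Fin n → Fin n → Γ}
    (hc : ∀ i j l i' j' l', c i j = c i' j' → c j l = c j' l' → c i l = c i' l')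
    (i j l : Fin n) : part K c (c i j) * part K c (c j l) ≤ part K c (c i l) := by
  rw [Submodule.mul_le]
  intro x hx y hy i' l' h
  rw [Matrix.mul_apply]
  refine Finset.sum_eq_zero fun j' _ => ?_
  by_cases h1 : c i' j' = c i j
  · by_cases h2 : c j' l' = c j l
    · exact absurd (hc _ _ _ _ _ _ h1 h2) h
    · rw [hy _ _ h2, mul_zero]
  · rw [hx _ _ h1, zero_mul]

theorem part_mul_eq_bot {c : Fin n → Fin n → Γ} {g h : Γ}
    (hgh : ¬ ∃ i j l, c i j = g ∧ c j l = h) : part K c g * part K c h = ⊥ := by
  rw [eq_bot_iff, Submodule.mul_le]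
  intro x hx y hy
  rw [Submodule.mem_bot]
  ext i l
  rw [Matrix.mul_apply]
  refine Finset.sum_eq_zero fun j _ => ?_
  by_cases h1 : c i j = g
  · by_cases h2 : c j l = h
    · exact absurd ⟨i, j, l, h1, h2⟩ hgh
    · rw [hy _ _ h2, mul_zero]
  · rw [hx _ _ h1, zero_mul]

theorem part_mul_ne_bot (c : Fin n → Fin n → Γ) (i j l : Fin n) :
    part K c (c i j) * part K c (c j l) ≠ ⊥ := by
  intro h
  have h1 : Matrix.single i j (1 : K) * Matrix.single j l (1 : K) ∈
      part K c (c i j) * part K c (c j l) :=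
    Submodule.mul_mem_mul (single_mem_part c i j 1) (single_mem_part c j l 1)
  rw [h, Submodule.mem_bot, Matrix.single_mul_single_same] at h1
  have h2 := congrFun (congrFun h1 i) l
  simp at h2

end General

/-- For every field `K` and every `n ≥ 3`, the full matrix algebra `M_n(K)` has a grading (over a
set with a partial binary operation `op`) which is not a semigroup grading. -/
theorem result : ∀ (K : Type u) [Field K] (n : ℕ), 3 ≤ n →
    ∃ (Γ : Type) (_ : DecidableEq Γ)
      (A : Γ → Submodule K (Matrix (Fin n) (Fin n) K)) (op : Γ → Γ → Option Γ),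
      DirectSum.IsInternal A ∧
      (∀ g, A g ≠ ⊥) ∧
      (∀ g h, op g h ≠ none ↔ A g * A h ≠ ⊥) ∧
      (∀ g h k, op g h = some k → A g * A h ≤ A k) ∧
      ¬ ∃ (G : Type v) (_ : Semigroup G) (ι : Γ → G), Function.Injective ι ∧
        ∀ g h k, op g h = some k → ι k = ι g * ι h := by
  classical
  intro K _ n hn
  -- the set of labels which occur
  let c0 : Fin n × Fin n → ℕ × ℕ := fun p => label ((p.1 : ℕ), (p.2 : ℕ))
  let Γ : Type := Set.range c0
  let c : Fin n → Fin n → Γ := fun i j => ⟨c0 (i, j), (i, j), rfl⟩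
  have hsurj : ∀ g : Γ, ∃ i j, c i j = g := by
    rintro ⟨g, ⟨i, j⟩, rfl⟩
    exact ⟨i, j, rfl⟩
  have hc : ∀ i j l i' j' l', c i j = c i' j' → c j l = c j' l' → c i l = c i' l' := by
    intro i j l i' j' l' h1 h2
    have h1' : label ((i : ℕ), (j : ℕ)) = label ((i' : ℕ), (j' : ℕ)) := congrArg Subtype.val h1
    have h2' : label ((j : ℕ), (l : ℕ)) = label ((j' : ℕ), (l' : ℕ)) := congrArg Subtype.val h2
    exact Subtype.ext (label_comp h1' h2')
  -- the partial operation
  let op : Γ → Γ → Option Γ := fun g h =>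
    if H : ∃ k i j l, c i j = g ∧ c j l = h ∧ c i l = k then some H.choose else none
  have hop : ∀ i j l, op (c i j) (c j l) = some (c i l) := by
    intro i j l
    have H : ∃ k i' j' l', c i' j' = c i j ∧ c j' l' = c j l ∧ c i' l' = k :=
      ⟨c i l, i, j, l, rfl, rfl, rfl⟩
    have h1 : op (c i j) (c j l) = some H.choose := dif_pos H
    rw [h1]
    obtain ⟨i', j', l', h2, h3, h4⟩ := H.choose_spec
    rw [← h4, hc _ _ _ _ _ _ h2 h3]
  have hop' : ∀ g h k, op g h = some k → ∃ i j l, c i j = g ∧ c j l = h ∧ c i l = k := by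
    intro g h k hk
    by_cases H : ∃ k i j l, c i j = g ∧ c j l = h ∧ c i l = k
    · have h1 : op g h = some H.choose := dif_pos H
      rw [h1] at hk
      have h2 := Option.some.inj hk
      have h3 := H.choose_spec
      rw [h2] at h3
      exact h3
    · have h1 : op g h = none := dif_neg H
      rw [h1] at hk
      cases hk
  refine ⟨Γ, inferInstance, part K c, op, ?_, ?_, ?_, ?_, ?_⟩
  · exact DirectSum.isInternal_submodule_of_iSupIndep_of_iSup_eq_top (iSupIndep_part c)
      (iSup_part c)
  · intro g hg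
    obtain ⟨i, j, rfl⟩ := hsurj g
    have h1 := single_mem_part c i j (1 : K)
    rw [hg, Submodule.mem_bot] at h1
    have h2 := congrFun (congrFun h1 i) j
    simp at h2
  · intro g h
    constructor
    · intro h1
      obtain ⟨k, hk⟩ := Option.ne_none_iff_exists'.1 h1
      obtain ⟨i, j, l, rfl, rfl, rfl⟩ := hop' g h k hk
      exact part_mul_ne_bot c i j l
    · intro h1 h2
      by_cases H : ∃ i j l, c i j = g ∧ c j l = h
      · obtain ⟨i, j, l, rfl, rfl⟩ := H
        rw [hop] at h2
        cases h2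
      · exact h1 (part_mul_eq_bot H)
  · intro g h k hk
    obtain ⟨i, j, l, rfl, rfl, rfl⟩ := hop' g h k hk
    exact part_mul_le hc i j l
  · rintro ⟨G, _, ι, hinj, hι⟩
    let z : Fin n := ⟨0, by omega⟩
    let o : Fin n := ⟨1, by omega⟩
    let t : Fin n := ⟨2, by omega⟩
    have e1 : c o t = c t z := Subtype.ext rfl
    have e2 : c o o = c z z := Subtype.ext rfl
    have e3 : c t t = c z z := Subtype.ext rfl
    have m1 : ι (c z z) = ι (c z t) * ι (c o t) := by
      rw [e1]
      exact hι _ _ _ (hop z t z)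
    have m2 : ι (c z z) = ι (c o t) * ι (c t o) := by
      rw [← e2]
      exact hι _ _ _ (hop o t o)
    have m3 : ι (c t o) = ι (c z z) * ι (c t o) := by
      rw [← e3]
      exact hι _ _ _ (hop t t o)
    have m4 : ι (c z t) = ι (c z t) * ι (c z z) := by
      rw [← e3]
      exact hι _ _ _ (hop z t t)
    have key : ι (c t o) = ι (c z t) := by
      rw [m3, m1, mul_assoc, ← m2, ← m4]
    have h1 := congrArg Subtype.val (hinj key)
    have h2 : label (2, 1) = label (0, 2) := h1
    exact absurd h2 (by decide)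

end Pool.Agent.Results.MP_5a34df_al.NonSemigroupGrading
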